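import Pool.Agent.R745.CDN.Defs

/-! R2N (MP_990a44_co, project CDN of helper745): there is a dominating common letter; adapted from
`Pool/Agent/H825R2/CD/R2.lean`. -/

set_option autoImplicit false

namespace R745CD
open Finset H825CD

/-- the real inequalities -/
theorem dom_real {a b m A T : ℝ} (ha0 : 0 ≤ a) (hb0 : 0 ≤ b) (ha : a ≤ 2 / 5) (hb : b ≤ 2 / 5)
    (hab : a + b ≤ 1 / 2) (hm : m ≤ 1 / 16) (hA : 0 ≤ 1 - a - A) (hT : 0 ≤ 1 - b - T)
    (h1 : (1 - a) * (1 - b - T) ≤ 4 * m) (h2 : (1 - a - A) * T ≤ m) (h3 : A * (1 - b - T) ≤ m) :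
    1 / 2 ≤ A ∧ 1 / 2 ≤ T := by
  have y1 : 32 / 100 ≤ T := by
    by_contra hc
    push Not at hc
    have e1 : (1 - a) * (68 / 100 - b) ≤ (1 - a) * (1 - b - T) :=
      mul_le_mul_of_nonneg_left (by linarith) (by linarith)
    rcases le_total a (1 / 10) with h | h
    · have e2 : 9 / 10 * (28 / 100) ≤ (1 - a) * (68 / 100 - b) :=
        mul_le_mul (by linarith) (by linarith) (by norm_num) (by linarith)
      linarith
    · have e2 : (1 - a) * (18 / 100 + a) ≤ (1 - a) * (68 / 100 - b) :=
        mul_le_mul_of_nonneg_left (by linarith) (by linarith)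
      have e3 : 0 ≤ (a - 1 / 10) * (2 / 5 - a) := mul_nonneg (by linarith) (by linarith)
      nlinarith
  have z0 : (1 - a - A) * (32 / 100) ≤ 1 / 16 := by
    have := mul_le_mul_of_nonneg_left y1 hA
    linarith
  have hA2 : 1 / 2 ≤ A := by
    rcases le_total a (3 / 10) with h | h
    · linarith
    · have y2 : 44 / 100 ≤ T := by
        by_contra hc
        push Not at hc
        have e1 : (1 - a) * (56 / 100 - b) ≤ (1 - a) * (1 - b - T) :=
          mul_le_mul_of_nonneg_left (by linarith) (by linarith)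
        have e2 : (1 - a) * (6 / 100 + a) ≤ (1 - a) * (56 / 100 - b) :=
          mul_le_mul_of_nonneg_left (by linarith) (by linarith)
        have e3 : 0 ≤ (a - 3 / 10) * (2 / 5 - a) := mul_nonneg (by linarith) (by linarith)
        nlinarith
      have z1 : (1 - a - A) * (44 / 100) ≤ 1 / 16 := by
        have := mul_le_mul_of_nonneg_left y2 hA
        linarith
      have a1 : 45 / 100 ≤ A := by linarith
      have z2 : 45 / 100 * (1 - b - T) ≤ 1 / 16 := by
        have := mul_le_mul_of_nonneg_right a1 hT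
        linarith
      have y3 : 66 / 100 ≤ T := by linarith
      have z3 : (1 - a - A) * (66 / 100) ≤ 1 / 16 := by
        have := mul_le_mul_of_nonneg_left y3 hA
        linarith
      linarith
  refine ⟨hA2, ?_⟩
  rcases le_total b (3 / 8) with h | h
  · have z4 : 1 / 2 * (1 - b - T) ≤ 1 / 16 := by
      have := mul_le_mul_of_nonneg_right hA2 hT
      linarith
    linarith
  · have a2 : 67 / 100 ≤ A := by linarith
    have z4 : 67 / 100 * (1 - b - T) ≤ 1 / 16 := by
      have := mul_le_mul_of_nonneg_right a2 hT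
      linarith
    linarith

theorem tN_dom (h : N_pure) : N_dom := by
  intro N C α β Q m k l a b z w hp hα hβ sα sβ hsplit hcard
  obtain ⟨_, _, ha', hb', hbig⟩ := h Q m k l a b z w hp
  have hQ := hp.hQ
  have hQ2 := hp.hQ2
  have hm0 := hp.hm0
  have hm := hp.hm
  have hz := hp.hz
  have hw := hp.hw
  have ha0 := hp.ha0
  have hb0 := hp.hb0
  have m1 : m ≤ 1 / 16 := by
    have hq : 16 ≤ qb Q := by
      interval_cases Q <;> decide
    have hq' : (16 : ℝ) ≤ (qb Q : ℝ) := by exact_mod_cast hq
    have := mul_le_mul_of_nonneg_right hq' hm0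
    linarith
  have hβn : ∀ P ⊆ C, 0 ≤ ∑ x ∈ P, β x := fun P hP => sum_nonneg fun x hx => hβ x (hP hx)
  have hαn : ∀ P ⊆ C, 0 ≤ ∑ x ∈ P, α x := fun P hP => sum_nonneg fun x hx => hα x (hP hx)
  have hCn : C.Nonempty := by
    rw [nonempty_iff_ne_empty]
    rintro rfl
    rw [sum_empty] at sα
    linarith
  rcases Nat.lt_or_ge C.card 2 with hC2 | hC2
  · have hC1 : C.card = 1 := by
      have := card_pos.2 hCn
      omega
    obtain ⟨t, rfl⟩ := card_eq_one.1 hC1
    rw [sum_singleton] at sα sβ
    exact ⟨t, mem_singleton_self t, by linarith, by linarith⟩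
  obtain ⟨ha2, hb2, hab⟩ := hbig (by omega)
  -- the median letter
  have hTn : (C.filter (fun t => 1 - a ≤ 2 * ∑ x ∈ C.filter (fun x => x ≤ t), α x)).Nonempty := by
    refine ⟨C.max' hCn, mem_filter.2 ⟨max'_mem _ _, ?_⟩⟩
    have : C.filter (fun x => x ≤ C.max' hCn) = C := filter_true_of_mem fun x hx => le_max' _ _ hx
    rw [this]
    linarith
  set t := (C.filter (fun t => 1 - a ≤ 2 * ∑ x ∈ C.filter (fun x => x ≤ t), α x)).min' hTn
    with ht
  have htm := min'_mem _ hTn
  rw [← ht, mem_filter] at htm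
  obtain ⟨htC, ht1⟩ := htm
  have ht0 : 2 * ∑ x ∈ C.filter (fun x => x < t), α x ≤ 1 - a := by
    rcases (C.filter (fun x => x < t)).eq_empty_or_nonempty with h0 | h0
    · rw [h0, sum_empty]
      linarith
    · have hs := max'_mem _ h0
      set s := (C.filter (fun x => x < t)).max' h0 with hsd
      rw [mem_filter] at hs
      have e1 : C.filter (fun x => x < t) = C.filter (fun x => x ≤ s) := by
        ext x
        rw [mem_filter, mem_filter]
        constructor
        · intro hx
          exact ⟨hx.1, le_max' _ _ (mem_filter.2 hx)⟩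
        · intro hx
          exact ⟨hx.1, lt_of_le_of_lt hx.2 hs.2⟩
      rw [e1]
      by_contra hcon
      push Not at hcon
      have h2 : s ∈ C.filter (fun t => 1 - a ≤ 2 * ∑ x ∈ C.filter (fun x => x ≤ t), α x) :=
        mem_filter.2 ⟨hs.1, hcon.le⟩
      have h3 := min'_le _ _ h2
      rw [← ht] at h3
      exact absurd hs.2 (not_lt.2 h3)
  -- splits
  have hP1 : C.filter (fun x => x ≤ t) ⊆ C := filter_subset _ _
  have hP0 : C.filter (fun x => x < t) ⊆ C := filter_subset _ _
  have s1 := hsplit _ hP1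
  have s2 := hsplit _ (sdiff_subset (s := C) (t := C.filter (fun x => x < t)))
  rw [Finset.sdiff_sdiff_eq_self hP0] at s2
  have n1 := hβn _ (sdiff_subset (s := C) (t := C.filter (fun x => x ≤ t)))
  have n0 := hβn _ hP0
  have d0 := sum_sdiff (f := α) hP0
  have s1' : (1 - a) / 2 * (∑ x ∈ C \ C.filter (fun x => x ≤ t), β x) ≤ m := by
    refine le_trans ?_ s1
    apply mul_le_mul
    · linarith
    · linarith
    · exact n1
    · linarith [hαn _ hP1]
  have s2' : (1 - a) / 2 * (∑ x ∈ C.filter (fun x => x < t), β x) ≤ m := by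
    refine le_trans ?_ s2
    apply mul_le_mul
    · linarith
    · linarith
    · exact n0
    · linarith [hαn _ (sdiff_subset (s := C) (t := C.filter (fun x => x < t)))]
  have hβt : ∑ x ∈ C.filter (fun x => x < t), β x + β t +
      ∑ x ∈ C \ C.filter (fun x => x ≤ t), β x = 1 - b := by
    have e2 : C.filter (fun x => x ≤ t) = insert t (C.filter (fun x => x < t)) := by
      ext x
      rw [mem_filter, mem_insert, mem_filter]
      constructor
      · rintro ⟨h1, h2⟩
        rcases h2.lt_or_eq with h3 | h3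
        · exact Or.inr ⟨h1, h3⟩
        · exact Or.inl h3
      · rintro (rfl | ⟨h1, h2⟩)
        · exact ⟨htC, le_rfl⟩
        · exact ⟨h1, h2.le⟩
    have e3 : t ∉ C.filter (fun x => x < t) := by
      intro h3
      exact absurd (mem_filter.1 h3).2 (lt_irrefl _)
    have d1 := sum_sdiff (f := β) hP1
    rw [e2, sum_insert e3] at d1
    rw [e2]
    linarith
  -- the split without the letter
  have hts : ({t} : Finset (Fin N)) ⊆ C := singleton_subset_iff.2 htC
  have s3 := hsplit (C \ {t}) sdiff_subset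
  rw [Finset.sdiff_sdiff_eq_self hts, sum_singleton] at s3
  have s4 := hsplit {t} hts
  rw [sum_singleton] at s4
  have d2 := sum_sdiff (f := α) hts
  have d3 := sum_sdiff (f := β) hts
  rw [sum_singleton] at d2 d3
  have n3 := hαn _ (sdiff_subset (s := C) (t := {t}))
  have n4 := hβn _ (sdiff_subset (s := C) (t := {t}))
  have ht0' : 0 ≤ β t := hβ t htC
  have hta0 : 0 ≤ α t := hα t htC
  have r1 : (1 - a) * (1 - b - β t) ≤ 4 * m := by
    have : 1 - b - β t = ∑ x ∈ C.filter (fun x => x < t), β x +
      ∑ x ∈ C \ C.filter (fun x => x ≤ t), β x := by linarith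
    rw [this]
    linarith
  have r2 : (1 - a - α t) * β t ≤ m := by
    have e : 1 - a - α t = ∑ x ∈ C \ {t}, α x := by linarith
    rw [e]
    refine le_trans ?_ s3
    apply mul_le_mul
    · linarith
    · linarith
    · exact ht0'
    · linarith
  have r3 : α t * (1 - b - β t) ≤ m := by
    have e : 1 - b - β t = ∑ x ∈ C \ {t}, β x := by linarith
    rw [e]
    refine le_trans ?_ s4
    apply mul_le_mul
    · linarith
    · linarith
    · exact n4
    · linarith
  obtain ⟨f1, f2⟩ := dom_real ha0 hb0 ha2 hb2 hab m1 (by linarith) (by linarith) r1 r2 r3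
  exact ⟨t, htC, f1, f2⟩

end R745CD
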